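import Pool.Agent.Work.MP_6bf1e5_an.Ang.Final

/-!
The three-dimensional Navier-Stokes equations projected onto a set `Λ` of eigenvalues of the total
angular momentum. For `Λ = univ` these are the usual equations (`GSol.sanity`). If `Λ` contains `6`
(that is `j = 2`) and does not contain `20` (that is `j = 4`), some Schwartz data blow up in finite
time along an exact Leray self-similar solution, although the removed part of the transport term
does no work and does not change the helicity.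
-/

open scoped ContDiff ENNReal RealInnerProductSpace
open Set MeasureTheory Pool.Agent.Work.MP_6bf1e5_an.Ens Pool.Agent.Work.MP_6bf1e5_an.Ang

namespace Pool.Agent.Results.MP_6bf1e5_an.AngularBlowup

theorem result (ν : ℝ) (hν : 0 < ν) :
    ∃ u0 : SchwartzMap R3 R3, (∀ x, ∑ i, pd i (fun y => u0 y i) x = 0) ∧
      ∀ Λ : Set ℝ, 6 ∈ Λ → 20 ∉ Λ →
      (∃ u p f, GSol ν Λ u0 (Ico 0 1) u p f ∧
        (∀ t ∈ Ico (0 : ℝ) 1, en (fun x => u x t) ≤ en u0 ∧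
          (∀ x, cas (fun y => u y t) x = (6 : ℝ) • u x t ∧
            cas (fun y => f y t) x = (20 : ℝ) • f x t) ∧
          ∀ ψ : ℝ → ℝ, ContDiff ℝ ∞ ψ → HasCompactSupport ψ →
            ∫ x, ψ (‖x‖ ^ 2) * ⟪f x t, u x t⟫ = 0 ∧
              ∫ x, ψ (‖x‖ ^ 2) * ⟪f x t, curl (fun y => u y t) x⟫ = 0) ∧
        ∃ W : R3 → R3, W ≠ 0 ∧ (∃ C : ℝ, ∀ y, ‖W y‖ ≤ C / (1 + ‖y‖)) ∧
          (∃ q g, GSol ν Λ W (Ico 0 1) (fun x t => (√(1 - t))⁻¹ • W ((√(1 - t))⁻¹ • x)) q g) ∧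
          ∀ ε > 0, ∃ t0 < 1, ∀ t ∈ Ico t0 1, ∀ y, ‖√(1 - t) • u (√(1 - t) • y) t - W y‖ ≤ ε) ∧
      ¬∃ u p f, GSol ν Λ u0 (Ici 0) u p f ∧
        ∃ C < (⊤ : ℝ≥0∞), ∀ t ≥ 0, en (fun x => u x t) ≤ C :=
  main hν

end Pool.Agent.Results.MP_6bf1e5_an.AngularBlowup
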