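import Pool.Agent.Work.MP_6bf1e5_an.Chaos.Top

/-!
The polynomial chaos (stochastic Galerkin, Wiener-Hermite) truncation of the unforced
three-dimensional Navier-Stokes equations: the velocity and the pressure are polynomials of degree
at most `p` in a standard Gaussian vector, and the Navier-Stokes residual is orthogonal to all such
polynomials. For every order `p ≥ 2` and enough Gaussian variables, some Schwartz data blow up in
finite time along an exact Leray self-similar solution, although the local energy identity holds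
in the mean and the residual does not change the mean helicity.
-/

open scoped ContDiff ENNReal
open Set MeasureTheory Pool.Agent.Work.MP_6bf1e5_an.Ens Pool.Agent.Work.MP_6bf1e5_an.Ang
  Pool.Agent.Work.MP_6bf1e5_an.Chaos

namespace Pool.Agent.Results.MP_6bf1e5_an.ChaosBlowup

theorem result (p n : ℕ) (hp : 2 ≤ p) (hn : 2 * (p / 2) < n) (ν : ℝ) (hν : 0 < ν) :
    ∃ u0 : (Fin n → ℝ) → SchwartzMap R3 R3,
      (∀ ξ x, ∑ i, pd i (fun y => u0 ξ y i) x = 0) ∧ men (fun ξ => u0 ξ) < ⊤ ∧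
      (∃ u q, PCSol p ν (fun ξ => u0 ξ) (Ico 0 1) u q ∧
        (∀ t ∈ Ico (0 : ℝ) 1, men (fun ξ x => u ξ x t) ≤ men fun ξ => u0 ξ) ∧
        (∀ x, ∀ t ∈ Ico (0 : ℝ) 1,
          derivWithin (fun s => ∫ ξ, ‖u ξ x s‖ ^ 2 / 2 ∂gm n) (Ico 0 1) t
            + ∑ j, pd j (fun y => ∫ ξ, u ξ y t j * (‖u ξ y t‖ ^ 2 / 2 + q ξ y t) ∂gm n) x
            = ν * ∑ j, (pd j (pd j fun y => ∫ ξ, ‖u ξ y t‖ ^ 2 / 2 ∂gm n) x
              - ∫ ξ, ∑ i, pd j (fun y => u ξ y t i) x ^ 2 ∂gm n) ∧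
          ∀ i, ∫ ξ, curl (fun y => u ξ y t) x i * res ν (Ico 0 1) (u ξ) (q ξ) x t i ∂gm n = 0) ∧
        ∃ W : (Fin n → ℝ) → R3 → R3, (∀ᵐ ξ ∂gm n, W ξ ≠ 0) ∧
          (∀ ξ, ∃ C : ℝ, ∀ y, ‖W ξ y‖ ≤ C / (1 + ‖y‖)) ∧
          (∃ r, PCSol p ν W (Ico 0 1) (fun ξ x t => (√(1 - t))⁻¹ • W ξ ((√(1 - t))⁻¹ • x)) r) ∧
          ∀ ξ, ∀ ε > 0, ∃ t0 < 1, ∀ t ∈ Ico t0 1, ∀ y,
            ‖√(1 - t) • u ξ (√(1 - t) • y) t - W ξ y‖ ≤ ε) ∧
      ¬∃ u q, PCSol p ν (fun ξ => u0 ξ) (Ici 0) u q ∧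
        ∃ C < (⊤ : ℝ≥0∞), ∀ t ≥ 0, men (fun ξ x => u ξ x t) ≤ C :=
  top hp hn hν

end Pool.Agent.Results.MP_6bf1e5_an.ChaosBlowup
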