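import Pool.Agent.Work.MP_6bf1e5_an.Hyp.NetOf

/-!
Finite-time blow-up, at the self-similar (Type I) rate, for the unforced periodic
three-dimensional Navier-Stokes equations with the exact nonlinearity and the Laplacian replaced
by an elliptic Fourier multiplier of order `2 α`, for every `α` from `1` up to the Lions exponent
`5 / 4`. The multiplier is a multiple of the fractional Laplacian outside a set of frequencies of
arbitrarily small density.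
-/

open Set Pool.Agent.Work.MP_6bf1e5_an.B Pool.Agent.Work.MP_6bf1e5_an

namespace Pool.Agent.Results.MP_6bf1e5_an.EllipticBlowup

theorem result : ∀ α δ : ℝ, 1 ≤ α → α < 5 / 4 → 0 < δ → ∃ (C : ℝ) (D : R3 → M3),
    IsSymbol α C D ∧
    (∀ R : ℕ, ({k : Z3 | (∀ i, |k i| ≤ R) ∧ D (fun l => 2 * Real.pi * k l) ≠ fun i j =>
      if i = j then C * (∑ l, (2 * Real.pi * k l) ^ 2) ^ α else 0}.ncard : ℝ) ≤ δ * R ^ 3) ∧
    (∃ L R : ℝ, 1 < L ∧ ∀ ξ : R3, R ≤ ‖ξ‖ → D (L • ξ) = L ^ (2 * α) • D ξ) ∧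
    (∀ ξ v : R3, ∑ i, ξ i * v i = 0 → ∑ i, ξ i * ∑ j, D ξ i j * v j = 0) ∧
    ∀ ν : ℝ, 0 < ν → ∃ u0 : R3 → R3, IsData u0 ∧ {k | fc u0 k ≠ 0}.Finite ∧
      (∃ T > 0, ∃ u p, IsSolutionOn (symDiss ν D) u0 (Ico 0 T) u p ∧
        (∀ t ∈ Ico 0 T, HasDerivWithinAt (fun s => energy fun x => u x s)
          (-(2 * ν * dissip D fun x => u x t)) (Ico 0 T) t) ∧
        (∃ K : ℝ, ∀ t ∈ Ico 0 T, ∀ x, ‖u x t‖ ≤ K * (T - t) ^ (1 / (2 * α) - 1)) ∧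
        ∀ M : ℝ, ∃ t ∈ Ico 0 T, ∃ x, M < ‖u x t‖) ∧
      ¬∃ u p, IsSolutionOn (symDiss ν D) u0 (Ici 0) u p := by
  intro α δ h1 h2 hδ
  obtain ⟨D, C, h⟩ := Hyp.Pd.main h1 h2 hδ
  exact ⟨C, D, h⟩

end Pool.Agent.Results.MP_6bf1e5_an.EllipticBlowup
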