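import Pool.Agent.Work.MP_6bf1e5_an.HP.Fin
import Pool.Agent.Work.MP_6bf1e5_an.HP.Last

open scoped ContDiff ENNReal FourierTransform Real
open Set MeasureTheory

namespace Pool.Agent.Results.MP_6bf1e5_an.FractionalBlowup

open Pool.Agent.Work.MP_6bf1e5_an.H

/-- Finite time blow-up from smooth rapidly decaying data for the unforced three-dimensional
Navier-Stokes equations with the dissipation `(-Δ) ^ α`, for all `α` in an interval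
`[3 / 4, 3 / 4 + δ)`. -/
theorem result : ∃ δ > 0, ∀ α : ℝ, 3 / 4 ≤ α → α < 3 / 4 + δ → ∀ ν : ℝ, 0 < ν →
    ∃ T > 0, ∃ u0 : R3 → R3, ContDiff ℝ ∞ u0 ∧
      (∀ n K : ℕ, ∃ C, ∀ x, (1 + ‖x‖) ^ K * ‖iteratedFDeriv ℝ n u0 x‖ ≤ C) ∧
      (∀ x, ∑ i, pd i (fun y => u0 y i) x = 0) ∧
      (∃ u p, (∀ T1, 0 < T1 → T1 < T → BSol α ν u0 T1 u p ∧
          ∀ v q, BSol α ν u0 T1 v q → ∀ t ∈ Icc 0 T1, ∀ x, v x t = u x t) ∧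
        (∀ t ∈ Ico 0 T, ∫ x, ‖u x t‖ ^ 2 ≤ ∫ x, ‖u0 x‖ ^ 2) ∧
        ∃ c > 0, ∃ R : ℝ, ∀ t ∈ Ico 0 T,
          (∃ x, ‖x‖ ≤ R * (T - t) ^ (1 / (2 * α)) ∧ c * (T - t) ^ (1 / (2 * α) - 1) ≤ ‖u x t‖) ∧
          ∃ x, ‖x‖ ≤ R * (T - t) ^ (1 / (2 * α)) ∧ ∃ i : Fin 3, c / (T - t) ≤
            |pd (i + 1) (fun y => u y t (i + 2)) x - pd (i + 2) (fun y => u y t (i + 1)) x|) ∧
      ¬∃ u p, BSol α ν u0 T u p :=
  Q.final Pool.Agent.Work.MP_6bf1e5_an.HD.stat0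

end Pool.Agent.Results.MP_6bf1e5_an.FractionalBlowup
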